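import Pool.Agent.helper62.W3.SpecA

/-! # Row we:TRV: total variation of the weight along a monotone sequence -/

set_option autoImplicit false

namespace Pool.Agent.EC

open Finset

private theorem TRV_id (s : ℝ) :
    max 0 (1 - |s|) = min 1 (max 0 (s + 1)) + min 1 (max 0 (1 - s)) - 1 := by
  rcases le_total 0 s with h | h
  · have h1 : max 0 (1 - s) ≤ 1 := max_le (by norm_num) (by linarith)
    rw [abs_of_nonneg h, max_eq_right (by linarith : (0 : ℝ) ≤ s + 1),
      min_eq_left (by linarith : (1 : ℝ) ≤ s + 1), min_eq_right h1]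
    ring
  · have h1 : max 0 (s + 1) ≤ 1 := max_le (by norm_num) (by linarith)
    have e : 1 - -s = s + 1 := by ring
    rw [abs_of_nonpos h, max_eq_right (by linarith : (0 : ℝ) ≤ 1 - s),
      min_eq_left (by linarith : (1 : ℝ) ≤ 1 - s), min_eq_right h1, e]
    ring

private theorem TRV_gen (u : ℕ → ℝ) (hu : Monotone u) (n : ℕ) :
    ∑ i ∈ range n, |max 0 (1 - |u (i + 1)|) - max 0 (1 - |u i|)| ≤ 2 := by
  have hA : ∀ i, min 1 (max 0 (u i + 1)) ≤ min 1 (max 0 (u (i + 1) + 1)) := by
    intro i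
    have h := hu (Nat.le_succ i)
    exact min_le_min le_rfl (max_le_max le_rfl (by linarith))
  have hB : ∀ i, min 1 (max 0 (1 - u (i + 1))) ≤ min 1 (max 0 (1 - u i)) := by
    intro i
    have h := hu (Nat.le_succ i)
    exact min_le_min le_rfl (max_le_max le_rfl (by linarith))
  have h1 : ∑ i ∈ range n, |max 0 (1 - |u (i + 1)|) - max 0 (1 - |u i|)| ≤
      ∑ i ∈ range n, ((min 1 (max 0 (u (i + 1) + 1)) - min 1 (max 0 (u i + 1))) +
        (min 1 (max 0 (1 - u i)) - min 1 (max 0 (1 - u (i + 1))))) := by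
    refine Finset.sum_le_sum fun i _ => ?_
    rw [TRV_id, TRV_id, abs_le]
    have h2 := hA i
    have h3 := hB i
    constructor <;> linarith
  have h2 : ∑ i ∈ range n, ((min 1 (max 0 (u (i + 1) + 1)) - min 1 (max 0 (u i + 1))) +
        (min 1 (max 0 (1 - u i)) - min 1 (max 0 (1 - u (i + 1))))) =
      (min 1 (max 0 (u n + 1)) - min 1 (max 0 (u 0 + 1))) +
        (min 1 (max 0 (1 - u 0)) - min 1 (max 0 (1 - u n))) := by
    rw [Finset.sum_add_distrib, Finset.sum_range_sub (fun i => min 1 (max 0 (u i + 1))),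
      Finset.sum_range_sub' (fun i => min 1 (max 0 (1 - u i)))]
  have a1 : min 1 (max 0 (u n + 1)) ≤ 1 := min_le_left _ _
  have a2 : 0 ≤ min 1 (max 0 (u 0 + 1)) := le_min (by norm_num) (le_max_left _ _)
  have a3 : min 1 (max 0 (1 - u 0)) ≤ 1 := min_le_left _ _
  have a4 : 0 ≤ min 1 (max 0 (1 - u n)) := le_min (by norm_num) (le_max_left _ _)
  rw [h2] at h1
  linarith

theorem TRV : TRV_stmt := by
  intro N hN x hx h0 n
  have hN' : (0 : ℝ) ≤ (N : ℝ) := Nat.cast_nonneg N
  have hu : Monotone (fun i => (Real.log (x i) - vN N) * (N : ℝ)) := by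
    intro i j hij
    have h1 : (1 : ℝ) ≤ (x i : ℝ) := by
      exact_mod_cast le_trans h0 (hx (Nat.zero_le i))
    have h2 : (x i : ℝ) ≤ (x j : ℝ) := by
      exact_mod_cast hx hij
    have h3 : Real.log (x i) ≤ Real.log (x j) := Real.log_le_log (by linarith) h2
    exact mul_le_mul_of_nonneg_right (by linarith) hN'
  have h := TRV_gen _ hu n
  have e : ∀ j, fN N j = max 0 (1 - |(Real.log j - vN N) * (N : ℝ)|) := by
    intro j
    unfold fN tri
    rw [abs_mul, abs_of_nonneg hN', div_div_eq_mul_div, div_one]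
  simp only [e]
  exact h

end Pool.Agent.EC
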