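import Pool.Agent.helper62.W3.SpecA
import Pool.Agent.helper70.GD.BV

/-! # Row we:BVE: the main part of the primes in progressions, in every window -/

set_option autoImplicit false

namespace Pool.Agent.EC

open Finset ArithmeticFunction
open Pool.Agent.CH (Win rgh dl eU Mo ClP ClB)

private theorem BVE_coprime (r : ℕ → ℕ) (hr : ClP r) (m : ℕ) (hm : 0 < m) (h30 : Nat.Coprime m 30) :
    Nat.Coprime (r m) (30 * m) := by
  obtain ⟨h1, h2⟩ := hr m hm h30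
  refine Nat.Coprime.mul_right ?_ ?_
  · have h3 : Nat.gcd (r m) 30 = Nat.gcd 1 30 := h1.gcd_eq
    rw [Nat.Coprime, h3]
    norm_num
  · rw [Nat.coprime_iff_gcd_eq_one]
    have h3 : Nat.gcd (r m) m ∣ 6 := by
      have h4 : Nat.gcd (r m) m ∣ r m + 6 := (Nat.gcd_dvd_right _ _).trans h2
      exact (Nat.dvd_add_right (Nat.gcd_dvd_left _ _)).mp h4
    have h4 : Nat.gcd (r m) m ∣ 30 := h3.trans (by norm_num)
    have h5 : Nat.gcd (r m) m ∣ Nat.gcd m 30 := Nat.dvd_gcd (Nat.gcd_dvd_right _ _) h4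
    rw [h30] at h5
    exact Nat.dvd_one.mp h5

private theorem BVE_inv (N : ℕ) (L θ : ℝ) (hLe : L = Real.log N) (hL : 12 ≤ L) (hN0 : 0 < N) (hθ : θ ≤ 1) :
    ∑ m ∈ Mo ((N : ℝ) ^ θ), 1 / (Nat.totient (30 * m) : ℝ) ≤ 6 * L ^ 2 := by
  set Q := ⌊(N : ℝ) ^ θ⌋₊ with hQ
  have hQN : Q ≤ N := by
    have h5 : (N : ℝ) ^ θ ≤ (N : ℝ) ^ (1 : ℝ) := by
      refine Real.rpow_le_rpow_of_exponent_le ?_ hθ
      exact_mod_cast hN0
    rw [Real.rpow_one] at h5
    exact Nat.floor_le_of_le h5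
  have hMo : ∀ m ∈ Mo ((N : ℝ) ^ θ), 0 < m ∧ m ≤ Q := by
    intro m hm
    unfold Mo at hm
    rw [mem_filter, mem_Icc] at hm
    exact ⟨hm.1.1, hm.1.2⟩
  have h5 : ∑ m ∈ Mo ((N : ℝ) ^ θ), 1 / (Nat.totient (30 * m) : ℝ) ≤
      ∑ m ∈ Icc 1 Q, 1 / (Nat.totient m : ℝ) := by
    calc ∑ m ∈ Mo ((N : ℝ) ^ θ), 1 / (Nat.totient (30 * m) : ℝ)
        ≤ ∑ m ∈ Mo ((N : ℝ) ^ θ), 1 / (Nat.totient m : ℝ) := by
          refine sum_le_sum fun m hm => ?_
          obtain ⟨hm0, _⟩ := hMo m hm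
          have h6 : (0 : ℝ) < Nat.totient m := by exact_mod_cast Nat.totient_pos.mpr hm0
          refine one_div_le_one_div_of_le h6 ?_
          have h7 : Nat.totient m ≤ Nat.totient (30 * m) :=
            Nat.le_of_dvd (Nat.totient_pos.mpr (by omega))
              (Nat.totient_dvd_of_dvd (Nat.dvd_mul_left m 30))
          exact_mod_cast h7
      _ ≤ ∑ m ∈ Icc 1 Q, 1 / (Nat.totient m : ℝ) := by
          refine sum_le_sum_of_subset_of_nonneg ?_ (fun m _ _ => by positivity)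
          intro m hm
          obtain ⟨hm0, hmQ⟩ := hMo m hm
          rw [mem_Icc]
          exact ⟨hm0, hmQ⟩
  refine h5.trans ?_
  rcases Nat.eq_zero_or_pos Q with h | h
  · rw [h]
    simp only [Icc_eq_empty_of_lt zero_lt_one, sum_empty]
    positivity
  · refine (GD.BV_sum_inv Q h).trans ?_
    have h6 : Real.log Q ≤ L := by
      rw [hLe]
      exact Real.log_le_log (by exact_mod_cast h) (by exact_mod_cast hQN)
    have h7 : 0 ≤ Real.log Q := Real.log_natCast_nonneg Q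
    nlinarith

theorem BVE (h1 : LCE_stmt) (h2 : SMP_stmt) : BVE_stmt := by
  intro ε A hε hε1
  obtain ⟨B, C, N₁, H1⟩ := h1 ε (A + 1) hε hε1
  obtain ⟨N₂, H2⟩ := h2 (A + 3) (B + 1) C
  refine ⟨C, max (max N₁ N₂) ⌈Real.exp 12⌉₊, ?_⟩
  intro N hN r hr
  have hN1 : N₁ ≤ N := (le_max_left _ _).trans ((le_max_left _ _).trans hN)
  have hN2 : N₂ ≤ N := (le_max_right _ _).trans ((le_max_left _ _).trans hN)
  have hNe : Real.exp 12 ≤ N := (Nat.le_ceil _).trans (by exact_mod_cast (le_max_right _ _).trans hN)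
  have hNpos : (0 : ℝ) < N := (Real.exp_pos _).trans_le hNe
  have hN0 : 0 < N := by exact_mod_cast hNpos
  have hL : 12 ≤ Real.log N := by
    rw [← Real.log_exp 12]
    exact Real.log_le_log (Real.exp_pos _) hNe
  have hinv := BVE_inv N (Real.log N) (1 / 2 - ε) rfl hL hN0 (by linarith)
  have HA := H1 N hN1 r hr
  set L := Real.log N with hLdef
  have hL0 : 0 < L := by linarith
  set R₀ := ⌈L ^ B⌉₊ with hR₀
  have hR₀1 : 1 ≤ R₀ := Nat.ceil_pos.mpr (by positivity)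
  have hR₀U : (R₀ : ℝ) ≤ L ^ (B + 1) := by
    have h5 := (Nat.ceil_lt_add_one (by positivity : 0 ≤ L ^ B)).le
    have h6 : (1 : ℝ) ≤ L ^ B := one_le_pow₀ (by linarith)
    have h7 : L ^ (B + 1) = L ^ B * L := pow_succ _ _
    rw [h7]
    nlinarith
  have hQN : ⌊(N : ℝ) ^ (1 / 2 - ε)⌋₊ ≤ N := by
    have h5 : (N : ℝ) ^ (1 / 2 - ε) ≤ (N : ℝ) ^ (1 : ℝ) := by
      refine Real.rpow_le_rpow_of_exponent_le ?_ (by linarith)
      exact_mod_cast hN0
    rw [Real.rpow_one] at h5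
    exact Nat.floor_le_of_le h5
  have hpt : ∀ m ∈ Mo ((N : ℝ) ^ (1 / 2 - ε)),
      |∑ j ∈ Win N with j ≡ r m [MOD 30 * m], mnf C N j * fN N j -
        1 / (Nat.totient (30 * m) : ℝ) * ∑ j ∈ Win N, mnf C N j * fN N j| ≤
      |∑ j ∈ Win N, mnf C N j * fN N j * KK R₀ (30 * m) (r m) j| +
        1 / (Nat.totient (30 * m) : ℝ) * ((N : ℝ) ^ 2 / L ^ (A + 3)) := by
    intro m hm
    unfold Mo at hm
    rw [mem_filter, mem_Icc] at hm
    obtain ⟨⟨hm0, hmQ⟩, hm30⟩ := hm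
    have hcop := BVE_coprime r hr m hm0 hm30
    have h30m : 0 < 30 * m := by omega
    have hle2 : 30 * m ≤ 64 * N ^ 3 := by
      have h5 : N ≤ N ^ 3 := Nat.le_self_pow (by norm_num) N
      have h6 := hmQ.trans hQN
      omega
    have e1 : ∑ j ∈ Win N with j ≡ r m [MOD 30 * m], mnf C N j * fN N j =
        ∑ j ∈ Win N, mnf C N j * fN N j * KK R₀ (30 * m) (r m) j +
          ∑ j ∈ Win N, mnf C N j * fN N j * GD.ks R₀ (30 * m) (r m) j := by
      rw [← sum_add_distrib, sum_filter]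
      refine sum_congr rfl fun j _ => ?_
      unfold KK
      split_ifs
      · ring
      · ring
    rw [e1, add_sub_assoc]
    refine (abs_add_le _ _).trans (add_le_add le_rfl ?_)
    exact H2 N hN2 (30 * m) (r m) R₀ h30m hle2 hcop hR₀1 hR₀U
  refine (sum_le_sum hpt).trans ?_
  rw [sum_add_distrib, ← sum_mul]
  have hA3 : (∑ m ∈ Mo ((N : ℝ) ^ (1 / 2 - ε)), 1 / (Nat.totient (30 * m) : ℝ)) *
      ((N : ℝ) ^ 2 / L ^ (A + 3)) ≤ 6 * L ^ 2 * ((N : ℝ) ^ 2 / L ^ (A + 3)) :=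
    mul_le_mul_of_nonneg_right hinv (by positivity)
  refine (add_le_add HA hA3).trans ?_
  have e2 : 6 * L ^ 2 * ((N : ℝ) ^ 2 / L ^ (A + 3)) = 6 / L * ((N : ℝ) ^ 2 / L ^ A) := by
    rw [pow_add]
    field_simp
  have e3 : (N : ℝ) ^ 2 / L ^ (A + 1) = 1 / L * ((N : ℝ) ^ 2 / L ^ A) := by
    rw [pow_add]
    field_simp
  rw [e2, e3, ← add_mul]
  have h8 : 1 / L + 6 / L ≤ 1 := by
    rw [← add_div, div_le_one hL0]
    linarith
  calc (1 / L + 6 / L) * ((N : ℝ) ^ 2 / L ^ A) ≤ 1 * ((N : ℝ) ^ 2 / L ^ A) :=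
        mul_le_mul_of_nonneg_right h8 (by positivity)
    _ = (N : ℝ) ^ 2 / L ^ A := one_mul _

end Pool.Agent.EC
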